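import Pool.Agent.T6.H16.RA.D1

set_option autoImplicit false

/-! Comparison of the forms in a chamber which meets a hyperplane only in the centre. -/

namespace Pool.Agent.T6.H26.RX

open MvPolynomial MeasureTheory Set Metric Module Filter Topology
open Pool.Agent.T6.H16.RA

variable {n : ℕ}

/-- the chamber is not empty -/
lemma ch_nonempty {κ : Type} [Fintype κ] [DecidableEq κ] (β : κ → Fin n → ℝ)
    (G : Submodule ℝ (Fin n → ℝ)) {p x₀ : Fin n → ℝ}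
    (hp : ∀ j, β j ∈ G → β j ⬝ᵥ p = 0) (hpp : ∀ j, β j ∉ G → 0 < β j ⬝ᵥ p)
    (hx₀ : ∀ j, β j ∈ G → 0 < β j ⬝ᵥ x₀) : ∃ y : Fin n → ℝ, ∀ j, 0 < β j ⬝ᵥ y := by
  have h1 : ∀ᶠ δ : ℝ in 𝓝[>] 0, ∀ j, β j ∉ G → 0 < β j ⬝ᵥ (p + δ • x₀) := by
    rw [eventually_all]
    intro j
    by_cases hh : β j ∈ G
    · exact Eventually.of_forall fun δ h2 => absurd hh h2
    · have hc : Continuous fun δ : ℝ => β j ⬝ᵥ (p + δ • x₀) :=
        (dot_cont (β j)).comp (continuous_const.add (continuous_id.smul continuous_const))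
      have h2 : 0 < β j ⬝ᵥ (p + (0 : ℝ) • x₀) := by
        rw [zero_smul, add_zero]
        exact hpp j hh
      have h3 := (hc.tendsto 0).eventually (lt_mem_nhds h2)
      exact (h3.filter_mono nhdsWithin_le_nhds).mono fun δ h4 _ => h4
  obtain ⟨δ, hδ1, hδ2⟩ := (h1.and self_mem_nhdsWithin).exists
  refine ⟨p + δ • x₀, fun j => ?_⟩
  by_cases hh : β j ∈ G
  · rw [dotProduct_add, hp j hh, zero_add, dotProduct_smul]
    exact smul_pos hδ2 (hx₀ j hh)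
  · exact hδ1 j hh

/-- the forms are bounded by the form `k0` -/
lemma cmp {κ : Type} [Fintype κ] [DecidableEq κ] (β : κ → Fin n → ℝ)
    (G : Submodule ℝ (Fin n → ℝ)) {k0 : κ} (hk : β k0 ∈ G) {x₀ : Fin n → ℝ}
    (hx₀ : ∀ j, β j ∈ G → 0 < β j ⬝ᵥ x₀)
    (hgood : ∀ x : Fin n → ℝ, (∀ j, β j ∈ G → 0 ≤ β j ⬝ᵥ x) → β k0 ⬝ᵥ x = 0 →
      ∀ j, β j ∈ G → β j ⬝ᵥ x = 0) :
    ∃ c : ℝ, 1 ≤ c ∧ ∀ y : Fin n → ℝ, (∀ j, β j ∈ G → 0 ≤ β j ⬝ᵥ y) → ∀ j, β j ∈ G →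
      β j ⬝ᵥ y ≤ c * (β k0 ⬝ᵥ y) := by
  classical
  let J := {j // β j ∈ G}
  let L : (Fin n → ℝ) →ₗ[ℝ] (J → ℝ) :=
    { toFun := fun x j => β j ⬝ᵥ x
      map_add' := fun x y => funext fun j => dotProduct_add (β j) x y
      map_smul' := fun c x => funext fun j => dotProduct_smul c (β j) x }
  have hL : ∀ x j, L x j = β j ⬝ᵥ x := fun x j => rfl
  set K1 : Set (J → ℝ) := stdSimplex ℝ J ∩ (LinearMap.range L : Set (J → ℝ)) with hK1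
  have hK1c : IsCompact K1 := (isCompact_stdSimplex ℝ J).inter_right
    (Submodule.closed_of_finiteDimensional (LinearMap.range L))
  have hmem : ∀ y : Fin n → ℝ, (∀ j, β j ∈ G → 0 ≤ β j ⬝ᵥ y) → 0 < ∑ j : J, β j ⬝ᵥ y →
      (∑ j : J, β j ⬝ᵥ y)⁻¹ • L y ∈ K1 := by
    intro y hy hs
    refine ⟨⟨fun j => ?_, ?_⟩, ⟨(∑ j : J, β j ⬝ᵥ y)⁻¹ • y, by rw [map_smul]⟩⟩
    · rw [Pi.smul_apply, smul_eq_mul, hL]
      exact mul_nonneg (inv_nonneg.2 hs.le) (hy j j.2)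
    · simp only [Pi.smul_apply, smul_eq_mul, hL]
      rw [← Finset.mul_sum, inv_mul_cancel₀ hs.ne']
  have hne : K1.Nonempty := by
    refine ⟨_, hmem x₀ (fun j hj => (hx₀ j hj).le) ?_⟩
    exact Finset.sum_pos (fun j _ => hx₀ j j.2) ⟨⟨k0, hk⟩, Finset.mem_univ _⟩
  obtain ⟨v, hv, hvmin⟩ := hK1c.exists_isMinOn hne
    (f := fun v : J → ℝ => v ⟨k0, hk⟩) (continuous_apply _).continuousOn
  have hv0 : 0 < v ⟨k0, hk⟩ := by
    obtain ⟨x, hx⟩ := hv.2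
    have h1 : ∀ j, β j ∈ G → 0 ≤ β j ⬝ᵥ x := by
      intro j hj
      have := hv.1.1 ⟨j, hj⟩
      rwa [← hx, hL] at this
    refine lt_of_le_of_ne (hv.1.1 _) fun h0 => ?_
    have h2 := hgood x h1 (by rw [h0, ← hx, hL])
    have h3 := hv.1.2
    rw [← hx] at h3
    simp only [hL] at h3
    rw [Finset.sum_eq_zero fun (j : J) _ => h2 j j.2] at h3
    exact zero_ne_one h3
  set δ := v ⟨k0, hk⟩ with hδ
  refine ⟨max δ⁻¹ 1, le_max_right _ _, fun y hy j hj => ?_⟩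
  have hk0 : 0 ≤ β k0 ⬝ᵥ y := hy k0 hk
  have hsum0 : 0 ≤ ∑ j : J, β j ⬝ᵥ y := Finset.sum_nonneg fun j _ => hy j j.2
  have hle : β j ⬝ᵥ y ≤ ∑ j : J, β j ⬝ᵥ y :=
    Finset.single_le_sum (f := fun j : J => β j ⬝ᵥ y) (fun j _ => hy j j.2)
      (Finset.mem_univ (⟨j, hj⟩ : J))
  have h4 : ∑ j : J, β j ⬝ᵥ y ≤ δ⁻¹ * (β k0 ⬝ᵥ y) := by
    rcases hsum0.eq_or_lt with h0 | h0
    · rw [← h0]
      exact mul_nonneg (inv_nonneg.2 hv0.le) hk0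
    · have h5 := hvmin (hmem y hy h0)
      simp only [Pi.smul_apply, smul_eq_mul, hL] at h5
      change δ ≤ (∑ j : J, β j ⬝ᵥ y)⁻¹ * (β k0 ⬝ᵥ y) at h5
      rw [inv_mul_eq_div, le_div_iff₀ h0] at h5
      rw [inv_mul_eq_div, le_div_iff₀ hv0, mul_comm]
      exact h5
  calc β j ⬝ᵥ y ≤ δ⁻¹ * (β k0 ⬝ᵥ y) := hle.trans h4
    _ ≤ max δ⁻¹ 1 * (β k0 ⬝ᵥ y) := mul_le_mul_of_nonneg_right (le_max_left _ _) hk0

/-- bounds for powers -/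
lemma rpow_bd {q A τ T : ℝ} (hq : 0 < q) (hq1 : q ≤ 1) (h1 : q ≤ A) (h2 : A ≤ q⁻¹)
    (h3 : |τ| ≤ T) : q ^ T ≤ A ^ τ ∧ A ^ τ ≤ (q ^ T)⁻¹ := by
  have hA : 0 < A := lt_of_lt_of_le hq h1
  have hlq : Real.log q ≤ 0 := Real.log_nonpos hq.le hq1
  have hl1 : Real.log q ≤ Real.log A := Real.log_le_log hq h1
  have hl2 : Real.log A ≤ -Real.log q := by
    rw [← Real.log_inv]
    exact Real.log_le_log hA h2
  have hlA : |Real.log A| ≤ -Real.log q := abs_le.2 ⟨by linarith, hl2⟩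
  have h4 : |Real.log A * τ| ≤ -Real.log q * T := by
    rw [abs_mul]
    exact mul_le_mul hlA h3 (abs_nonneg _) (by linarith)
  have h5 := abs_le.1 h4
  rw [Real.rpow_def_of_pos hq, Real.rpow_def_of_pos hA, ← Real.exp_neg]
  refine ⟨Real.exp_le_exp.2 ?_, Real.exp_le_exp.2 ?_⟩
  · linarith [h5.1]
  · linarith [h5.2]

end Pool.Agent.T6.H26.RX
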