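import Pool.Agent.T6.H16.RW.H4

set_option autoImplicit false

/-! The divergence of an integral with a polynomial weight over a part of the positive orthant gives a
root up to an integer. -/

namespace Pool.Agent.T6.H26.RX

open MvPolynomial MeasureTheory Set Filter Topology Metric
open scoped ContDiff
open Pool.Agent.H628R4.TP (weylS IsBFunction)
open Pool.Agent.T6.H16.RA Pool.Agent.T6.H16.RW

section
variable {n : ℕ} {f : MvPolynomial (Fin n) ℝ} {U K : Set (Fin n → ℝ)}

/-- the integral with a nonnegative weight is analytic -/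
lemma ana_w (hf : Reg f U) {s0 : ℝ} {h : (Fin n → ℝ) → ℝ} (hm : Measurable h)
    (h0 : ∀ x, 0 ≤ h x) (hint : ∀ s, s0 < s → Integrable (fun x => Fs f U s x * h x)) :
    AnalyticOnNhd ℝ (fun t => ∫ x, Fs f U t x * h x) (Ioi s0) := by
  set μ : Measure (Fin n → ℝ) := (volume.restrict U).withDensity fun x => ENNReal.ofReal (h x)
    with hμ
  have hUm : MeasurableSet U := hf.op.measurableSet
  have hfm : Measurable (rv f) := (rv_cont f).measurable
  have hexp : ∀ t : ℝ, ∀ x ∈ U, Real.exp (t * Real.log (rv f x)) = rv f x ^ t := by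
    intro t x hx
    rw [Real.rpow_def_of_pos (hf.pos x hx), mul_comm]
  have hind : ∀ t x, Fs f U t x * h x = U.indicator (fun x => rv f x ^ t * h x) x := by
    intro t x
    by_cases hx : x ∈ U
    · rw [Fs_in hx, indicator_of_mem hx]
    · rw [Fs_out hx, indicator_of_notMem hx, zero_mul]
  have e : (fun t => ∫ x, Fs f U t x * h x) =
      ProbabilityTheory.mgf (fun x => Real.log (rv f x)) μ := by
    funext t
    unfold ProbabilityTheory.mgf
    rw [hμ, integral_withDensity_eq_integral_toReal_smul hm.ennreal_ofReal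
      (Eventually.of_forall fun x => ENNReal.ofReal_lt_top)]
    simp only [hind]
    rw [integral_indicator hUm]
    refine setIntegral_congr_fun hUm fun x hx => ?_
    simp only [smul_eq_mul]
    rw [ENNReal.toReal_ofReal (h0 x), hexp t x hx]
    ring
  rw [e]
  refine (ProbabilityTheory.analyticOnNhd_mgf).mono ?_
  refine interior_maximal (fun t ht => ?_) isOpen_Ioi
  show Integrable _ _
  rw [hμ, integrable_withDensity_iff_integrable_smul₀' hm.ennreal_ofReal.aemeasurable
    (Eventually.of_forall fun x => ENNReal.ofReal_lt_top)]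
  have h1 := hint t ht
  simp only [hind] at h1
  rw [integrable_indicator_iff hUm] at h1
  refine h1.congr_fun ?_ hUm
  intro x hx
  simp only [smul_eq_mul]
  rw [ENNReal.toReal_ofReal (h0 x), hexp t x hx]
  ring

end

variable {n : ℕ} {κ : Type} [Fintype κ] {ζ : κ → Fin n → ℂ} {a : Fin n → ℕ}
  {f : MvPolynomial (Fin n) ℝ} {U K : Set (Fin n → ℝ)}

/-- the functional equation, used several times -/
theorem iter_eqS (hf : Reg f U) (hi : Inv ζ f) (ha : ∀ i, 0 < a i) (hS : Sec a ζ)
    (hK : IsCompact K) (hf0 : cx f ≠ 0) {b : Polynomial ℂ}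
    (hb : IsBFunction (cx f) b) : ∃ M : ℝ, 0 < M ∧ ∀ (N : ℕ) (g : κ → (Fin n → ℝ) → ℂ),
      g ∈ TS a ζ K → ∃ R : ℝ → ℂ, AnalyticOnNhd ℝ R (Ioi (-(N : ℝ))) ∧ ∀ t, M < t →
        (∏ j ∈ Finset.range N, b.eval ((t : ℂ) + (j : ℂ))) * PT f U t g = R t := by
  obtain ⟨S, A, M, hM, hA, hfe⟩ := real_eqS hf hi ha hS hK hf0 hb
  have hPm : MeasurableSet (Pos n) := Pos_open.measurableSet
  refine ⟨M, hM, fun N => ?_⟩
  induction N with
  | zero =>
    intro g hg
    refine ⟨fun t => PT f U t g, ?_, fun t _ => by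
      rw [Finset.range_zero, Finset.prod_empty, one_mul]⟩
    rw [Nat.cast_zero, neg_zero]
    have h1 : ∀ t, PT f U t g = ∑ k, ∫ x, (Fs f U t x : ℂ) * (Pos n).indicator (g k) x := by
      intro t
      unfold PT
      refine Finset.sum_congr rfl fun k _ => ?_
      rw [← integral_indicator hPm]
      refine integral_congr_ae (Eventually.of_forall fun x => ?_)
      by_cases hx : x ∈ Pos n
      · simp only [indicator_of_mem hx]
      · simp only [indicator_of_notMem hx, mul_zero]
    simp only [h1]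
    refine Finset.analyticOnNhd_fun_sum _ fun k _ => ?_
    have hgc := (TS_sm hg k).continuous
    obtain ⟨c, hc⟩ := hgc.bounded_above_of_compact_support (TS_cs ha hK hg k)
    refine anaS hf (K := pw a ⁻¹' K) (pw_compact ha hK).isClosed.measurableSet (fun s hs => ?_)
      (hgc.measurable.indicator hPm) (c := c) (fun x => ?_) fun x hx => ?_
    · have hcs : Continuous fun x => rv f x ^ s :=
        (rv_cont _).rpow_const fun x => Or.inr hs.le
      exact (hcs.continuousOn.integrableOn_compact (pw_compact ha hK)).mono_set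
        inter_subset_right
    · exact (norm_indicator_le_norm_self _ _).trans (hc x)
    · by_cases hxP : x ∈ Pos n
      · rw [indicator_of_mem hxP]
        exact TS_su hg k hx
      · exact indicator_of_notMem hxP _
  | succ N ih =>
    intro g hg
    choose R hR1 hR2 using fun m : ℕ => ih (A m g) (hA m g hg)
    refine ⟨fun t => ∑ m ∈ S, (t : ℂ) ^ m * R m (t + 1), ?_, fun t ht => ?_⟩
    · refine Finset.analyticOnNhd_fun_sum S fun m _ => ?_
      have hc : AnalyticOnNhd ℝ (fun t : ℝ => (t : ℂ)) (Ioi (-((N + 1 : ℕ) : ℝ))) := fun t _ =>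
        Complex.ofRealCLM.analyticAt t
      refine (hc.pow m).mul ?_
      intro t ht
      have h1 : AnalyticAt ℝ (R m) (t + 1) := hR1 m _ (by
        simp only [mem_Ioi] at ht ⊢
        push_cast at ht
        linarith)
      exact h1.comp_of_eq (analyticAt_id.add analyticAt_const) rfl
    · rw [Finset.prod_range_succ', Nat.cast_zero, add_zero, mul_assoc, hfe t ht g hg,
        Finset.mul_sum]
      refine Finset.sum_congr rfl fun m _ => ?_
      have h1 := hR2 m (t + 1) (by linarith)
      rw [← h1]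
      have h2 : ∀ j : ℕ, ((t : ℂ) + ((j + 1 : ℕ) : ℂ)) = (((t + 1 : ℝ) : ℂ) + (j : ℂ)) := by
        intro j
        push_cast
        ring
      simp only [h2]
      ring

/-- **Divergence of a weighted integral gives a root up to an integer.** -/
theorem rootSW [Nonempty κ] (hf : Reg f U) (hi : Inv ζ f) (ha : ∀ i, 0 < a i) (hS : Sec a ζ)
    (hf0 : cx f ≠ 0) {b : Polynomial ℂ} (hb : IsBFunction (cx f) b)
    {h : MvPolynomial (Fin n) ℝ} (hih : Inv ζ h) (hh : ∀ x ∈ U, 0 ≤ rv h x)
    {p px : Fin n → ℝ} (hpx : ∀ i, 0 ≤ px i) (hpp : pw a px = p) {ρ : ℝ} (hρ : 0 < ρ) {s0 : ℝ}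
    (hint : ∀ s, s0 < s → IntegrableOn (fun x => rv f x ^ s * rv h x)
      (U ∩ (Pos n ∩ closedBall px ρ)))
    (hdiv : ∀ ρ' : ℝ, 0 < ρ' → ρ' ≤ ρ → ∀ R : ℝ, ∃ᶠ t in 𝓝[>] s0,
      R < ∫ x in U ∩ (Pos n ∩ closedBall px (ρ' / 2)), rv f x ^ t * rv h x) :
    ∃ j : ℕ, b.eval ((s0 : ℂ) + (j : ℂ)) = 0 := by
  by_contra hb0
  push Not at hb0
  have hUm : MeasurableSet U := hf.op.measurableSet
  have hPm : MeasurableSet (Pos n) := Pos_open.measurableSet
  -- the balls
  obtain ⟨ρ1, hρ1, hb1⟩ : ∃ ρ1 : ℝ, 0 < ρ1 ∧ ∀ y ∈ closedBall p ρ1, rt a y ∈ closedBall px ρ := by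
    have h1 : ∀ᶠ y in 𝓝 p, rt a y ∈ closedBall px ρ := by
      refine (rt_cont a).continuousAt.eventually ?_
      have : rt a p = px := by rw [← hpp, rt_pw ha hpx]
      rw [this]
      exact closedBall_mem_nhds _ hρ
    exact nhds_basis_closedBall.eventually_iff.1 h1
  obtain ⟨ρ2, hρ2, hb2⟩ : ∃ ρ2 : ℝ, 0 < ρ2 ∧
      ∀ x ∈ closedBall px ρ2, pw a x ∈ closedBall p (ρ1 / 2) := by
    have h1 : ∀ᶠ x in 𝓝 px, pw a x ∈ closedBall p (ρ1 / 2) := by
      refine (pw_cont a).continuousAt.eventually ?_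
      rw [hpp]
      exact closedBall_mem_nhds _ (by linarith)
    exact nhds_basis_closedBall.eventually_iff.1 h1
  set K := closedBall p ρ1 with hK'
  have hK : IsCompact K := isCompact_closedBall p ρ1
  set K' := Pos n ∩ closedBall px ρ with hK''
  have hK'm : MeasurableSet K' := hPm.inter measurableSet_closedBall
  have hPK : ∀ x ∈ Pos n, pw a x ∈ K → x ∈ K' := by
    intro x hx hxK
    refine ⟨hx, ?_⟩
    have h1 := hb1 _ hxK
    rwa [rt_pw ha fun i => (hx i).le] at h1
  obtain ⟨M, hM, hit⟩ := iter_eqS hf hi ha hS hK hf0 hb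
  obtain ⟨N, hN⟩ := exists_nat_gt (-s0)
  set φ : ContDiffBump p := ⟨ρ1 / 2, ρ1, by linarith, by linarith⟩ with hφ
  have hφc : Continuous fun x : Fin n → ℝ => φ (pw a x) := φ.continuous.comp (pw_cont a)
  have hφT : IsT K (fun y => ((φ y : ℝ) : ℂ)) := by
    refine ⟨Complex.ofRealCLM.contDiff.comp φ.contDiff, ?_⟩
    have h1 : tsupport (fun y => ((φ y : ℝ) : ℂ)) ⊆ tsupport φ := by
      refine closure_mono fun x hx => ?_
      rw [Function.mem_support] at hx ⊢
      intro h0
      exact hx (by rw [h0, Complex.ofReal_zero])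
    exact h1.trans φ.tsupport_eq.subset
  set g : κ → (Fin n → ℝ) → ℂ := fun k x => ev x (sc (ζ k) (cx h)) * ((φ (pw a x) : ℝ) : ℂ)
    with hg'
  have hg : g ∈ TS a ζ K := Submodule.subset_span ⟨cx h, _, hφT, rfl⟩
  obtain ⟨R, hR1, hR2⟩ := hit N g hg
  -- the weight
  set w : (Fin n → ℝ) → ℝ := (Pos n).indicator fun x => max (rv h x) 0 * φ (pw a x) with hw
  have hw0 : ∀ x, 0 ≤ w x := fun x =>
    indicator_nonneg (fun y _ => mul_nonneg (le_max_right _ _) φ.nonneg) x
  have hwm : Measurable w :=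
    ((((rv_cont h).max continuous_const).mul hφc).measurable).indicator hPm
  have hFw : ∀ t x, Fs f U t x * w x =
      (Pos n).indicator (fun x => Fs f U t x * (rv h x * φ (pw a x))) x := by
    intro t x
    by_cases hxP : x ∈ Pos n
    · rw [hw, indicator_of_mem hxP, indicator_of_mem hxP]
      by_cases hx : x ∈ U
      · rw [max_eq_left (hh x hx)]
      · rw [Fs_out hx, zero_mul, zero_mul]
    · rw [hw, indicator_of_notMem hxP, indicator_of_notMem hxP, mul_zero]
  have hTw : ∀ t, PT f U t g = (Fintype.card κ : ℂ) * ((∫ x, Fs f U t x * w x : ℝ) : ℂ) := by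
    intro t
    unfold PT
    have e : ∀ k ∈ (Finset.univ : Finset κ), ∫ x in Pos n, (Fs f U t x : ℂ) * g k x =
        ((∫ x, Fs f U t x * w x : ℝ) : ℂ) := by
      intro k _
      simp only [hFw]
      rw [integral_indicator hPm, ← integral_complex_ofReal]
      refine integral_congr_ae (Eventually.of_forall fun x => ?_)
      simp only [hg']
      rw [hih k, ev_cx]
      push_cast
      ring
    rw [Finset.sum_congr rfl e, Finset.sum_const, Finset.card_univ, nsmul_eq_mul]
  have hiw : ∀ t, s0 < t → Integrable fun x => Fs f U t x * w x := by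
    intro t ht
    have h1 := hint t ht
    have h2 : Integrable ((U ∩ K').indicator fun x => rv f x ^ t * rv h x) :=
      (integrable_indicator_iff (hUm.inter hK'm)).2 h1
    refine Integrable.mono' h2 ?_ (Eventually.of_forall fun x => ?_)
    · refine Measurable.aestronglyMeasurable ?_
      exact ((((rv_cont f).measurable).pow_const t).indicator hUm).mul hwm
    · rw [Real.norm_eq_abs, abs_of_nonneg (mul_nonneg (Fs_nonneg hf t x) (hw0 x)), hFw]
      by_cases hxP : x ∈ Pos n
      · rw [indicator_of_mem (s := Pos n) hxP]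
        by_cases hx : x ∈ U
        · by_cases hxK : x ∈ K'
          · rw [indicator_of_mem (s := U ∩ K') ⟨hx, hxK⟩, Fs_in hx]
            refine mul_le_mul_of_nonneg_left ?_ (Real.rpow_nonneg (hf.pos x hx).le _)
            exact mul_le_of_le_one_right (hh x hx) φ.le_one
          · rw [indicator_of_notMem (s := U ∩ K') (fun h => hxK h.2)]
            have h3 : φ (pw a x) = 0 := by
              by_contra h4
              exact hxK (hPK x hxP (φ.tsupport_eq.subset (subset_tsupport φ h4)))
            rw [h3, mul_zero, mul_zero]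
        · rw [indicator_of_notMem (s := U ∩ K') (fun h => hx h.1), Fs_out hx, zero_mul]
      · rw [indicator_of_notMem (s := Pos n) hxP]
        exact indicator_nonneg (fun y hy => mul_nonneg (Real.rpow_nonneg (hf.pos y hy.1).le _)
          (hh y hy.1)) x
  have hT1 : AnalyticOnNhd ℝ (fun t => ∫ x, Fs f U t x * w x) (Ioi s0) := ana_w hf hwm hw0 hiw
  have hT : AnalyticOnNhd ℝ (fun t => PT f U t g) (Ioi s0) := by
    simp only [hTw]
    exact analyticOnNhd_const.mul (analytic_ofRealS hT1)
  set B : ℝ → ℂ := fun t => ∏ j ∈ Finset.range N, b.eval ((t : ℂ) + (j : ℂ)) with hB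
  have hBa : AnalyticOnNhd ℝ B univ := by
    intro t _
    have h1 : AnalyticAt ℝ (fun z : ℂ => ∏ j ∈ Finset.range N, b.eval (z + (j : ℂ))) (t : ℂ) := by
      have h2 : AnalyticAt ℂ (fun z : ℂ => Polynomial.aeval z
          (∏ j ∈ Finset.range N, b.comp (Polynomial.X + Polynomial.C (j : ℂ)))) (t : ℂ) :=
        AnalyticAt.aeval_polynomial analyticAt_id _
      have h3 := h2.restrictScalars (𝕜 := ℝ)
      refine h3.congr (Eventually.of_forall fun z => ?_)
      simp only [Polynomial.coe_aeval_eq_eval, Polynomial.eval_prod, Polynomial.eval_comp,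
        Polynomial.eval_add, Polynomial.eval_X, Polynomial.eval_C]
    exact h1.comp (Complex.ofRealCLM.analyticAt t)
  have hsub : Ioi s0 ⊆ Ioi (-(N : ℝ)) := fun t ht => by
    simp only [mem_Ioi] at ht ⊢
    linarith
  have hfe2 : EqOn (fun t : ℝ => B t * PT f U t g - R t) 0 (Ioi s0) := by
    refine AnalyticOnNhd.eqOn_zero_of_preconnected_of_eventuallyEq_zero (𝕜 := ℝ) ?_
      isPreconnected_Ioi (z₀ := max M s0 + 1) ?_ ?_
    · exact ((hBa.mono (subset_univ _)).mul hT).sub (hR1.mono hsub)
    · simp only [mem_Ioi]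
      have := le_max_right M s0
      linarith
    · have h1 : Ioi M ∈ 𝓝 (max M s0 + 1) := Ioi_mem_nhds (by
        have := le_max_left M s0
        linarith)
      filter_upwards [h1] with t ht
      simp only [Pi.zero_apply]
      rw [hB]
      simp only
      rw [hR2 t ht, sub_self]
  have hBs : B s0 ≠ 0 := by
    rw [hB]
    simp only
    exact Finset.prod_ne_zero_iff.2 fun j _ => hb0 j
  have hRc : ContinuousAt R s0 := (hR1 s0 (by
    simp only [mem_Ioi]
    linarith)).continuousAt
  have hBc : ContinuousAt B s0 := (hBa s0 (mem_univ _)).continuousAt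
  have hlim : Tendsto (fun t => PT f U t g) (𝓝[>] s0) (𝓝 (R s0 / B s0)) := by
    have h1 := (hRc.tendsto.div hBc.tendsto hBs).mono_left (nhdsWithin_le_nhds (s := Ioi s0))
    refine h1.congr' ?_
    have h2 : ∀ᶠ t : ℝ in 𝓝[>] s0, B t ≠ 0 :=
      (hBc.eventually_ne hBs).filter_mono nhdsWithin_le_nhds
    filter_upwards [h2, self_mem_nhdsWithin] with t ht ht0
    have h3 := hfe2 ht0
    simp only [Pi.zero_apply] at h3
    rw [Pi.div_apply, ← sub_eq_zero.1 h3, mul_div_cancel_left₀ _ ht]
  have hbd : ∃ r : ℝ, ∀ᶠ t in 𝓝[>] s0, ‖PT f U t g‖ ≤ r := by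
    refine ⟨‖R s0 / B s0‖ + 1, ?_⟩
    have h1 := hlim.norm.eventually (gt_mem_nhds (lt_add_one _))
    filter_upwards [h1] with t ht
    exact ht.le
  obtain ⟨r, hrb⟩ := hbd
  set ρ' := min ρ ρ2 with hρ'
  have hρ'0 : 0 < ρ' := lt_min hρ hρ2
  have hfr := hdiv ρ' hρ'0 (min_le_left _ _) r
  refine hfr ?_
  filter_upwards [hrb, self_mem_nhdsWithin] with t ht ht0 hlt
  have h1 : (∫ x in U ∩ (Pos n ∩ closedBall px (ρ' / 2)), rv f x ^ t * rv h x) ≤
      ∫ x, Fs f U t x * w x := by
    rw [← integral_indicator (hUm.inter (hPm.inter measurableSet_closedBall))]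
    refine integral_mono_of_nonneg (Eventually.of_forall fun x => ?_) (hiw t ht0)
      (Eventually.of_forall fun x => ?_)
    · exact indicator_nonneg (fun y hy => mul_nonneg (Real.rpow_nonneg (hf.pos y hy.1).le _)
        (hh y hy.1)) x
    · show (U ∩ (Pos n ∩ closedBall px (ρ' / 2))).indicator _ x ≤ Fs f U t x * w x
      by_cases hx : x ∈ U ∩ (Pos n ∩ closedBall px (ρ' / 2))
      · have h5 : pw a x ∈ closedBall p (ρ1 / 2) := by
          refine hb2 x (closedBall_subset_closedBall ?_ hx.2.2)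
          have := min_le_right ρ ρ2
          linarith
        rw [hFw, indicator_of_mem hx, indicator_of_mem hx.2.1, Fs_in hx.1,
          φ.one_of_mem_closedBall h5, mul_one]
      · rw [indicator_of_notMem hx]
        exact mul_nonneg (Fs_nonneg hf t x) (hw0 x)
  have h4 : 0 ≤ ∫ x, Fs f U t x * w x :=
    integral_nonneg fun x => mul_nonneg (Fs_nonneg hf t x) (hw0 x)
  have h2 : ‖PT f U t g‖ = Fintype.card κ * ∫ x, Fs f U t x * w x := by
    rw [hTw, norm_mul, Complex.norm_natCast, Complex.norm_real, Real.norm_eq_abs,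
      abs_of_nonneg h4]
  have h3 : (1 : ℝ) ≤ Fintype.card κ := by
    exact_mod_cast Fintype.card_pos
  have h5 : (∫ x, Fs f U t x * w x) ≤ Fintype.card κ * ∫ x, Fs f U t x * w x :=
    le_mul_of_one_le_left h4 h3
  linarith

end Pool.Agent.T6.H26.RX
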