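import Pool.Agent.T6.H26.RX.A
import Pool.Agent.T6.H26.RX.B

set_option autoImplicit false

/-! A root up to an integer, from a chamber which meets one hyperplane only in the centre. -/

namespace Pool.Agent.T6.H26.RX

open MvPolynomial MeasureTheory Set Metric Module Filter Topology
open Pool.Agent.H628R4.TP (weylS IsBFunction)
open Pool.Agent.T6.H16.RA Pool.Agent.T6.H16.RW

variable {n : ℕ} {ι : Type} [Fintype ι] [DecidableEq ι]

lemma prod_split (A E : ι → ℝ) (P : ι → Prop) [DecidablePred P] (h0 : ι) (hA : ∀ h, 0 < A h) :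
    ∏ h, A h ^ E h = A h0 ^ (∑ h, if P h then E h else 0) *
      ∏ h, (if P h then (A h / A h0) ^ E h else A h ^ E h) := by
  rw [Real.rpow_sum_of_pos (hA h0), ← Finset.prod_mul_distrib]
  refine Finset.prod_congr rfl fun h _ => ?_
  split_ifs with hh
  · rw [Real.div_rpow (hA h).le (hA h0).le, mul_div_cancel₀]
    exact (Real.rpow_pos_of_pos (hA h0) _).ne'
  · rw [Real.rpow_zero, one_mul]

/-- the upper bound -/
lemma prod_upper {A E : ι → ℝ} {P : ι → Prop} [DecidablePred P] {h0 : ι} (hA : ∀ h, 0 < A h)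
    {q T : ℝ} (hq : 0 < q) (hq1 : q ≤ 1) (hT : ∀ h, |E h| ≤ T)
    (hE : ∀ h, P h → h ≠ h0 → 0 ≤ E h) (h1 : ∀ h, ¬ P h → q ≤ A h ∧ A h ≤ q⁻¹)
    (h2 : ∀ h, P h → A h / A h0 ≤ q⁻¹) :
    ∏ h, A h ^ E h ≤ ((q ^ T)⁻¹) ^ Fintype.card ι * A h0 ^ (∑ h, if P h then E h else 0) := by
  have hqT : 0 < q ^ T := Real.rpow_pos_of_pos hq T
  have hT0 : 0 ≤ T := (abs_nonneg _).trans (hT h0)
  have hqT1 : q ^ T ≤ 1 := Real.rpow_le_one hq.le hq1 hT0
  rw [prod_split A E P h0 hA, mul_comm]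
  refine mul_le_mul_of_nonneg_right ?_ (Real.rpow_nonneg (hA h0).le _)
  have e : ((q ^ T)⁻¹) ^ Fintype.card ι = ∏ _h : ι, (q ^ T)⁻¹ := by
    rw [Finset.prod_const, Finset.card_univ]
  rw [e]
  refine Finset.prod_le_prod (fun h _ => ?_) fun h _ => ?_
  · split_ifs
    · exact Real.rpow_nonneg (div_nonneg (hA h).le (hA h0).le) _
    · exact Real.rpow_nonneg (hA h).le _
  · split_ifs with hh
    · by_cases hh0 : h = h0
      · rw [hh0, div_self (hA h0).ne', Real.one_rpow]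
        exact (one_le_inv₀ hqT).2 hqT1
      · refine (Real.rpow_le_rpow (div_nonneg (hA h).le (hA h0).le) (h2 h hh)
          (hE h hh hh0)).trans ?_
        rw [← Real.inv_rpow hq.le]
        exact Real.rpow_le_rpow_of_exponent_le ((one_le_inv₀ hq).2 hq1)
          ((le_abs_self _).trans (hT h))
    · exact (rpow_bd hq hq1 (h1 h hh).1 (h1 h hh).2 (hT h)).2

/-- the lower bound -/
lemma prod_lower {A E : ι → ℝ} {P : ι → Prop} [DecidablePred P] {h0 : ι} (hA : ∀ h, 0 < A h)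
    {q T : ℝ} (hq : 0 < q) (hq1 : q ≤ 1) (hT : ∀ h, |E h| ≤ T)
    (hE : ∀ h, P h → h ≠ h0 → 0 ≤ E h) (h1 : ∀ h, ¬ P h → q ≤ A h ∧ A h ≤ q⁻¹)
    (h2 : ∀ h, P h → h ≠ h0 → q ≤ A h / A h0) :
    (q ^ T) ^ Fintype.card ι * A h0 ^ (∑ h, if P h then E h else 0) ≤ ∏ h, A h ^ E h := by
  have hqT : 0 < q ^ T := Real.rpow_pos_of_pos hq T
  have hT0 : 0 ≤ T := (abs_nonneg _).trans (hT h0)
  have hqT1 : q ^ T ≤ 1 := Real.rpow_le_one hq.le hq1 hT0
  rw [prod_split A E P h0 hA, mul_comm (A h0 ^ _)]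
  refine mul_le_mul_of_nonneg_right ?_ (Real.rpow_nonneg (hA h0).le _)
  have e : (q ^ T) ^ Fintype.card ι = ∏ _h : ι, q ^ T := by
    rw [Finset.prod_const, Finset.card_univ]
  rw [e]
  refine Finset.prod_le_prod (fun h _ => hqT.le) fun h _ => ?_
  · split_ifs with hh
    · by_cases hh0 : h = h0
      · rw [hh0, div_self (hA h0).ne', Real.one_rpow]
        exact hqT1
      · refine le_trans ?_ (Real.rpow_le_rpow hq.le (h2 h hh hh0) (hE h hh hh0))
        exact Real.rpow_le_rpow_of_exponent_ge hq hq1 ((le_abs_self _).trans (hT h))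
    · exact (rpow_bd hq hq1 (h1 h hh).1 (h1 h hh).2 (hT h)).1

/-- the exponents of the weight -/
noncomputable def we (α : ι → Fin n → ℝ) (m : ι → ℕ) (G : Submodule ℝ (Fin n → ℝ)) (h0 : ι)
    (K : ℕ) (h : ι) : ℕ :=
  open Classical in if α h ∈ G then
    (if h = h0 then K * (mu α m G * (m h0 - 1) + m h0) else K * ((mu α m G + 1) * m h)) else 0

lemma we_sum {α : ι → Fin n → ℝ} {m : ι → ℕ} (hm : ∀ h, 0 < m h)
    {G : Submodule ℝ (Fin n → ℝ)} {h0 : ι} (hh0 : α h0 ∈ G) (K : ℕ) :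
    open Classical in (∑ h, if α h ∈ G then (we α m G h0 K h : ℝ) else 0) =
      K * mu α m G * mu α m G := by
  classical
  have h1 : ∀ h, (if α h ∈ G then (we α m G h0 K h : ℝ) else 0) =
      (K * (mu α m G + 1)) * (if α h ∈ G then (m h : ℝ) else 0) -
        (if h = h0 then (K * mu α m G : ℝ) else 0) := by
    intro h
    unfold we
    by_cases hh : α h ∈ G
    · by_cases hh1 : h = h0
      · subst hh1
        simp only [hh0, if_true]
        push_cast [Nat.cast_sub (hm h)]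
        ring
      · simp only [hh, if_true, if_neg hh1]
        push_cast
        ring
    · have hh1 : h ≠ h0 := fun h2 => hh (h2 ▸ hh0)
      simp only [hh, if_false, if_neg hh1]
      ring
  rw [Finset.sum_congr rfl fun h _ => h1 h, Finset.sum_sub_distrib, ← Finset.mul_sum,
    Finset.sum_ite_eq' Finset.univ h0, if_pos (Finset.mem_univ _)]
  have h2 : (∑ h, if α h ∈ G then (m h : ℝ) else 0) = mu α m G := by
    unfold mu
    push_cast
    rfl
  rw [h2]
  ring

end Pool.Agent.T6.H26.RX
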