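import Pool.Agent.T6.H26.RX.C
import Pool.Agent.T6.H16.RW.D5

set_option autoImplicit false

/-! The weighted criterion, positive signs. -/

namespace Pool.Agent.T6.H26.RX

open MvPolynomial MeasureTheory Set Metric Module Filter Topology
open Pool.Agent.H628R4.TP (weylS IsBFunction)
open Pool.Agent.T6.H16.RA Pool.Agent.T6.H16.RW

variable {n : ℕ} {ι : Type} [Fintype ι] [DecidableEq ι]

/-- the forms and the differences with a multiple of the form `h0` -/
noncomputable def ap (α : ι → Fin n → ℝ) (G : Submodule ℝ (Fin n → ℝ)) (h0 : ι) (κ : ℝ) :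
    ι ⊕ ι → Fin n → ℝ :=
  open Classical in Sum.elim α fun h => if α h ∈ G then α h - κ • α h0 else α h

/-- the multiplicities -/
def mp (h0 : ι) : ι ⊕ ι → ℕ := Sum.elim (fun h => if h = h0 then 1 else 0) fun _ => 0

lemma mu_m1 {α : ι → Fin n → ℝ} {G : Submodule ℝ (Fin n → ℝ)} {h0 : ι} (hh0 : α h0 ∈ G) :
    mu α (fun h => if h = h0 then 1 else 0) G = 1 := by
  classical
  unfold mu
  rw [Finset.sum_eq_single h0]
  · rw [if_pos hh0]
    exact if_pos rfl
  · intro h _ hh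
    show (if α h ∈ G then (if h = h0 then 1 else 0) else 0) = 0
    rw [if_neg hh]
    split_ifs <;> rfl
  · intro h
    exact absurd (Finset.mem_univ _) h

lemma mu_m1_zero {α : ι → Fin n → ℝ} {G : Submodule ℝ (Fin n → ℝ)} {h0 : ι} (hh0 : α h0 ∉ G) :
    mu α (fun h => if h = h0 then 1 else 0) G = 0 := by
  classical
  unfold mu
  refine Finset.sum_eq_zero fun h _ => ?_
  show (if α h ∈ G then (if h = h0 then 1 else 0) else 0) = 0
  by_cases hh : h = h0
  · subst hh
    rw [if_neg hh0]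
  · rw [if_neg hh]
    split_ifs <;> rfl

lemma mu_mp {α : ι → Fin n → ℝ} {G : Submodule ℝ (Fin n → ℝ)} {h0 : ι} (hh0 : α h0 ∈ G) (κ : ℝ) :
    mu (ap α G h0 κ) (mp h0) G = 1 := by
  classical
  have h1 := mu_m1 (α := α) hh0
  unfold mu at h1 ⊢
  rw [Fintype.sum_sum_type]
  have h2 : ∑ h : ι, (if ap α G h0 κ (Sum.inr h) ∈ G then mp h0 (Sum.inr h) else 0) = 0 := by
    refine Finset.sum_eq_zero fun h _ => ?_
    split_ifs <;> rfl
  rw [h2, add_zero]
  exact h1

lemma rv_m1 (α : ι → Fin n → ℝ) (h0 : ι) (a : Fin n → ℕ) (x : Fin n → ℝ) :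
    rv (qf α (fun h => if h = h0 then 1 else 0) a) x = α h0 ⬝ᵥ pw a x := by
  rw [rv_qf, Finset.prod_eq_single h0]
  · rw [if_pos rfl, pow_one]
  · intro h _ hh
    rw [if_neg hh, pow_zero]
  · intro h
    exact absurd (Finset.mem_univ _) h

lemma rv_mp (α : ι → Fin n → ℝ) (G : Submodule ℝ (Fin n → ℝ)) (h0 : ι) (κ : ℝ)
    (a : Fin n → ℕ) (x : Fin n → ℝ) : rv (qf (ap α G h0 κ) (mp h0) a) x = α h0 ⬝ᵥ pw a x := by
  rw [rv_qf, Fintype.prod_sum_type]
  have h2 : ∏ h : ι, (ap α G h0 κ (Sum.inr h) ⬝ᵥ pw a x) ^ (mp h0 (Sum.inr h)) = 1 := by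
    refine Finset.prod_eq_one fun h _ => ?_
    show _ ^ 0 = _
    rw [pow_zero]
  rw [h2, mul_one, ← rv_m1 α h0 a x, rv_qf]
  rfl

/-- the product of powers -/
lemma weight_eq (α : ι → Fin n → ℝ) (m e : ι → ℕ) (a : Fin n → ℕ) {x : Fin n → ℝ} (hx : x ∈ Ux α a)
    (s : ℝ) : rv (qf α m a) x ^ s * rv (qf α e a) x =
      ∏ h, (α h ⬝ᵥ pw a x) ^ (s * m h + e h) := by
  rw [rv_qf, rv_qf, ← Real.finsetProd_rpow _ _ fun h _ => pow_nonneg (hx h).le _,
    ← Finset.prod_mul_distrib]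
  refine Finset.prod_congr rfl fun h _ => ?_
  rw [Real.rpow_add (hx h), ← Real.rpow_natCast, ← Real.rpow_mul (hx h).le,
    ← Real.rpow_natCast (α h ⬝ᵥ pw a x) (e h)]
  congr 2
  ring

/-- **The weighted criterion, if all signs are positive.** -/
theorem crit_posW {α : ι → Fin n → ℝ} {m : ι → ℕ} {a : Fin n → ℕ} (ha : ∀ i, 2 ≤ a i)
    (ha0 : ∀ i, 0 < a i)
    (hα : ∀ h, α h ≠ 0) (hm : ∀ h, 0 < m h) {G : Submodule ℝ (Fin n → ℝ)}
    (hG : IsFlat (bt α) G) {h0 : ι} (hh0 : α h0 ∈ G) {p : Fin n → ℝ} (hp : ∀ v ∈ G, v ⬝ᵥ p = 0)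
    (hpp : ∀ j, bt α j ∉ G → 0 < bt α j ⬝ᵥ p) {x₀ : Fin n → ℝ}
    (hx₀ : ∀ j, bt α j ∈ G → 0 < bt α j ⬝ᵥ x₀)
    (hgood : ∀ x : Fin n → ℝ, (∀ j, bt α j ∈ G → 0 ≤ bt α j ⬝ᵥ x) → α h0 ⬝ᵥ x = 0 →
      ∀ j, bt α j ∈ G → bt α j ⬝ᵥ x = 0)
    {b : Polynomial ℂ} (hb : IsBFunction (cx (qf α m a)) b) :
    ∃ l : ℤ, b.eval ((((-(nuA a G : ℝ) / (PP a * mu α m G : ℕ) : ℝ)) : ℂ) + (l : ℂ)) = 0 := by
  classical
  have hM : 0 < mu α m G := by
    unfold mu
    refine Finset.sum_pos' (fun _ _ => Nat.zero_le _) ⟨h0, Finset.mem_univ _, ?_⟩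
    rw [if_pos hh0]
    exact hm h0
  have hp0 : ∀ j, bt α j ∈ G → bt α j ⬝ᵥ p = 0 := fun j hj => hp _ hj
  have hpi : ∀ i, 0 ≤ p i := by
    intro i
    rw [← bt_inr α i p]
    by_cases hh : bt α (Sum.inr i) ∈ G
    · rw [hp0 _ hh]
    · exact (hpp _ hh).le
  set px := rt a p with hpx
  have hpw : pw a px = p := pw_rt ha0 hpi
  have hpx0 : ∀ i, 0 ≤ px i := fun i => Real.rpow_nonneg (hpi i) _
  -- the constants
  obtain ⟨c0, hc1, hc0⟩ : ∃ c0 : ℝ, (∀ j, bt α j ∉ G → c0 < bt α j ⬝ᵥ p) ∧ 0 < c0 := by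
    have h1 : ∀ᶠ c : ℝ in 𝓝[>] 0, ∀ j, bt α j ∉ G → c < bt α j ⬝ᵥ p := by
      rw [eventually_all]
      intro j
      by_cases hh : bt α j ∈ G
      · exact Eventually.of_forall fun δ h2 => absurd hh h2
      · exact ((gt_mem_nhds (hpp j hh)).filter_mono nhdsWithin_le_nhds).mono fun c h4 _ => h4
    exact (h1.and self_mem_nhdsWithin).exists
  obtain ⟨ρ, hρ, hout⟩ : ∃ ρ : ℝ, 0 < ρ ∧ ∀ x ∈ closedBall px ρ, ∀ j, bt α j ∉ G →
      c0 < bt α j ⬝ᵥ pw a x := by
    have h1 : ∀ᶠ x in 𝓝 px, ∀ j, bt α j ∉ G → c0 < bt α j ⬝ᵥ pw a x := by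
      rw [eventually_all]
      intro j
      by_cases hh : bt α j ∈ G
      · exact Eventually.of_forall fun δ h2 => absurd hh h2
      · have hc : Continuous fun x : Fin n → ℝ => bt α j ⬝ᵥ pw a x :=
          (dot_cont (bt α j)).comp (pw_cont a)
        have h2 : c0 < bt α j ⬝ᵥ pw a px := by
          rw [hpw]
          exact hc1 j hh
        exact ((hc.tendsto px).eventually (lt_mem_nhds h2)).mono fun c h4 _ => h4
    exact (nhds_basis_closedBall.eventually_iff.1 h1)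
  have hout' : ∀ j, bt α j ∉ G → ∀ x ∈ closedBall px ρ, c0 ≤ bt α j ⬝ᵥ pw a x := fun j hh x hx =>
    (hout x hx j hh).le
  -- the comparison
  obtain ⟨cc1, hcc1, hcmp⟩ := cmp (bt α) G (k0 := Sum.inl h0) hh0 hx₀ hgood
  -- the small number
  obtain ⟨κ, ⟨hκ, hκ1⟩, hκ0⟩ : ∃ κ : ℝ, ((∀ h, α h ∈ G → κ * (α h0 ⬝ᵥ x₀) < α h ⬝ᵥ x₀) ∧ κ < 1) ∧
      0 < κ := by
    have h1 : ∀ᶠ κ : ℝ in 𝓝[>] 0, ∀ h, α h ∈ G → κ * (α h0 ⬝ᵥ x₀) < α h ⬝ᵥ x₀ := by
      rw [eventually_all]
      intro h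
      by_cases hh : α h ∈ G
      · have hc : Continuous fun κ : ℝ => κ * (α h0 ⬝ᵥ x₀) := continuous_id.mul continuous_const
        have h2 : (0 : ℝ) * (α h0 ⬝ᵥ x₀) < α h ⬝ᵥ x₀ := by
          rw [zero_mul]
          exact hx₀ (Sum.inl h) hh
        exact (((hc.tendsto 0).eventually (gt_mem_nhds h2)).filter_mono
          nhdsWithin_le_nhds).mono fun _ h4 _ => h4
      · exact Eventually.of_forall fun δ h2 => absurd h2 hh
    have h2 : ∀ᶠ κ : ℝ in 𝓝[>] 0, κ < 1 :=
      (gt_mem_nhds one_pos).filter_mono nhdsWithin_le_nhds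
    exact ((h1.and h2).and self_mem_nhdsWithin).exists
  -- the bound of the forms
  obtain ⟨R, hR1, hR⟩ : ∃ R : ℝ, 1 ≤ R ∧ ∀ x ∈ closedBall px ρ, ∀ j, bt α j ⬝ᵥ pw a x ≤ R := by
    have hc : Continuous fun (x : Fin n → ℝ) (j : ι ⊕ Fin n) => bt α j ⬝ᵥ pw a x :=
      continuous_pi fun j => (dot_cont _).comp (pw_cont a)
    obtain ⟨R, hR⟩ := ((isCompact_closedBall px ρ).image hc).isBounded.exists_norm_le
    refine ⟨max R 1, le_max_right _ _, fun x hx j => ?_⟩
    have h2 := hR _ ⟨x, hx, rfl⟩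
    have h3 := norm_le_pi_norm (fun j : ι ⊕ Fin n => bt α j ⬝ᵥ pw a x) j
    rw [Real.norm_eq_abs] at h3
    exact (le_abs_self _).trans (h3.trans (h2.trans (le_max_left _ _)))
  obtain ⟨q, hq0, hq1, hqc, hqκ, hqR, hqcc⟩ : ∃ q : ℝ, 0 < q ∧ q ≤ 1 ∧ q ≤ c0 ∧ q ≤ κ ∧
      R ≤ q⁻¹ ∧ cc1 ≤ q⁻¹ := by
    have hR0 : 0 < R := by linarith
    have hcc0 : 0 < cc1 := by linarith
    refine ⟨min (min c0 κ) (min R⁻¹ cc1⁻¹), ?_, ?_, ?_, ?_, ?_, ?_⟩
    · exact lt_min (lt_min hc0 hκ0) (lt_min (inv_pos.2 hR0) (inv_pos.2 hcc0))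
    · exact ((min_le_right _ _).trans (min_le_left _ _)).trans (inv_le_one_of_one_le₀ hR1)
    · exact (min_le_left _ _).trans (min_le_left _ _)
    · exact (min_le_left _ _).trans (min_le_right _ _)
    · rw [le_inv_comm₀ hR0 (lt_min (lt_min hc0 hκ0) (lt_min (inv_pos.2 hR0) (inv_pos.2 hcc0)))]
      exact (min_le_right _ _).trans (min_le_left _ _)
    · rw [le_inv_comm₀ hcc0 (lt_min (lt_min hc0 hκ0) (lt_min (inv_pos.2 hR0) (inv_pos.2 hcc0)))]
      exact (min_le_right _ _).trans (min_le_right _ _)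
  set K0 := nuA a G with hK0
  set μ := mu α m G with hμ
  set e : ι → ℕ := we α m G h0 K0 with he
  have hreg := reg_qf α a hm
  have ha' : (0 : ℝ) < PP a := by exact_mod_cast PP_pos ha0
  have hM' : (0 : ℝ) < μ := by exact_mod_cast hM
  have hM1 : (1 : ℝ) ≤ μ := by exact_mod_cast hM
  have ha1 : (1 : ℝ) ≤ PP a := by exact_mod_cast PP_pos ha0
  have hK0' : (0 : ℝ) ≤ K0 := Nat.cast_nonneg _
  have hr : 0 < finrank ℝ G := by
    rcases Nat.eq_zero_or_pos (finrank ℝ G) with h1 | h1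
    · have h2 := hM
      rw [hμ, Submodule.finrank_eq_zero.1 h1, mu_bot hα] at h2
      exact absurd h2 (lt_irrefl _)
    · exact h1
  have hnu : (0 : ℝ) < K0 := by
    rw [hK0, nuA_eq ha0]
    refine mul_pos ha' ?_
    have h1 := wc_le ha0 G
    have h2 : (cc G : ℝ) ≤ finrank ℝ G := by exact_mod_cast cc_le G
    have h3 := mul_le_mul_of_nonneg_left h2 (wa_nonneg (PP_pos ha0))
    have h4 : wa (PP a) * finrank ℝ G < 1 * finrank ℝ G :=
      mul_lt_mul_of_pos_right (wa_lt (PP_pos ha0)) (by exact_mod_cast hr)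
    linarith
  set k : ℕ := K0 * μ with hk
  set s1 : ℝ := -(K0 : ℝ) / (PP a * μ : ℕ) - k with hs1
  have hdiv0 : (K0 : ℝ) / (PP a * μ : ℕ) ≤ K0 := by
    refine div_le_self hK0' ?_
    push_cast
    nlinarith
  -- the exponents
  have hEnn : ∀ s : ℝ, s1 < s → ∀ h, α h ∈ G → h ≠ h0 → 0 ≤ s * m h + e h := by
    intro s hs h hh hne
    have e1 : (e h : ℝ) = K0 * (μ + 1) * m h := by
      rw [he]
      unfold we
      rw [if_pos hh, if_neg hne]
      push_cast
      ring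
    rw [e1, ← add_mul]
    refine mul_nonneg ?_ (Nat.cast_nonneg _)
    have h2 : s1 = -((K0 : ℝ) / (PP a * μ : ℕ)) - K0 * μ := by
      rw [hs1, hk, neg_div]
      push_cast
      ring
    nlinarith
  have hEsum : ∀ s : ℝ, (∑ h, if α h ∈ G then (s * m h + e h) else 0) = (s + k) * μ := by
    intro s
    have h1 : ∀ h, (if α h ∈ G then (s * m h + e h : ℝ) else 0) =
        s * (if α h ∈ G then (m h : ℝ) else 0) + (if α h ∈ G then (e h : ℝ) else 0) := by
      intro h
      split_ifs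
      · rfl
      · ring
    rw [Finset.sum_congr rfl fun h _ => h1 h, Finset.sum_add_distrib, ← Finset.mul_sum]
    have h2 : (∑ h, if α h ∈ G then (m h : ℝ) else 0) = μ := by
      rw [hμ]
      unfold mu
      push_cast
      rfl
    have h3 := we_sum hm hh0 K0
    rw [h2, he, h3, hk]
    push_cast
    ring
  have hTb : ∀ S s : ℝ, |s| ≤ S → ∀ h, |s * m h + e h| ≤ ∑ h, (S * m h + e h) := by
    intro S s hs h
    have hS : 0 ≤ S := (abs_nonneg _).trans hs
    have h1 : |s * m h + e h| ≤ S * m h + e h := by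
      refine (abs_add_le _ _).trans ?_
      rw [abs_mul, Nat.abs_cast, Nat.abs_cast]
      have := mul_le_mul_of_nonneg_right hs (Nat.cast_nonneg (α := ℝ) (m h))
      linarith
    refine h1.trans ?_
    exact Finset.single_le_sum (f := fun h => (S * m h + e h : ℝ))
      (fun h _ => add_nonneg (mul_nonneg hS (Nat.cast_nonneg _)) (Nat.cast_nonneg _))
      (Finset.mem_univ h)
  have hpwi : ∀ x ∈ Pos n, ∀ i, 0 ≤ pw a x i := fun x hx i => pow_nonneg (hx i).le _
  have hUb : ∀ x ∈ Ux α a, x ∈ Pos n → ∀ j, bt α j ∈ G → 0 ≤ bt α j ⬝ᵥ pw a x := by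
    rintro x hx hxP (h | i) _
    · exact (hx h).le
    · rw [bt_inr]
      exact hpwi x hxP i
  have hrange : ∀ x ∈ closedBall px ρ, ∀ h, α h ∉ G →
      q ≤ α h ⬝ᵥ pw a x ∧ α h ⬝ᵥ pw a x ≤ q⁻¹ := fun x hx h hh =>
    ⟨hqc.trans (hout' (Sum.inl h) hh x hx), (hR x hx (Sum.inl h)).trans hqR⟩
  -- the integrability of the powers of the form `h0`
  have hgood' : ∀ (k : ℕ) (b : Fin k → ι ⊕ Fin n), (∀ i, bt α (b i) ∈ G) → 0 < k →
      spn (bt α) b ≠ G → LinearIndependent ℝ (fun i => bt α (b i)) →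
      nuA a G * mu α (fun h => if h = h0 then 1 else 0) (spn (bt α) b) ≤
        mu α (fun h => if h = h0 then 1 else 0) G * nuA a (spn (bt α) b) ∨
        Cert (bt α) G (spn (bt α) b) := by
    intro k b hbG hk hne' hI
    by_cases h1 : α h0 ∈ spn (bt α) b
    · rcases face_or_cert (bt α) G (spn (bt α) b) with ⟨x, hx1, hx2⟩ | h2
      · exfalso
        have h3 : ∀ j, bt α j ∈ G → 0 ≤ bt α j ⬝ᵥ x := by
          intro j hj
          by_cases h10 : bt α j ∈ spn (bt α) b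
          · rw [hx1 _ h10]
          · exact (hx2 j hj h10).le
        have h4 := hgood x h3 (hx1 _ h1)
        have h5 : ∀ j, bt α j ∈ G → bt α j ∈ spn (bt α) b := by
          intro j hj
          by_contra h6
          have h7 := hx2 j hj h6
          rw [h4 j hj] at h7
          exact lt_irrefl _ h7
        refine hne' (le_antisymm ?_ ?_)
        · unfold spn
          rw [Submodule.span_le]
          rintro _ ⟨i, rfl⟩
          exact hbG i
        · conv_lhs => rw [hG]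
          rw [Submodule.span_le]
          rintro _ ⟨h6, j, rfl⟩
          exact h5 j h6
      · exact Or.inr h2
    · left
      rw [mu_m1_zero h1, mul_zero]
      exact Nat.zero_le _
  have hintτ : ∀ τ, -(K0 : ℝ) / PP a < τ →
      IntegrableOn (fun x => (α h0 ⬝ᵥ pw a x) ^ τ) (Ux α a ∩ (Pos n ∩ closedBall px ρ)) := by
    intro τ hτ
    have h1 := int_pow_good (m := fun h => if h = h0 then 1 else 0) ha0 hα hG
      (by rw [mu_m1 hh0]; exact one_pos) hgood' hc0 hout' (s := τ) (by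
        rw [mu_m1 hh0, mul_one]
        exact hτ)
    refine h1.congr_fun (fun x _ => ?_) ((Ux_open α a).measurableSet.inter
      (Pos_open.measurableSet.inter measurableSet_closedBall))
    simp only
    rw [rv_m1]
  have hh_nonneg : ∀ x ∈ Ux α a, 0 ≤ rv (qf α e a) x := by
    intro x hx
    rw [rv_qf]
    exact Finset.prod_nonneg fun h _ => pow_nonneg (hx h).le _
  have hs1k : ∀ s, s1 < s → -(K0 : ℝ) / PP a < (s + k) * μ := by
    intro s hs
    have h1 : s1 + k = -(K0 : ℝ) / (PP a * μ : ℕ) := by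
      rw [hs1]
      ring
    have h2 : -(K0 : ℝ) / PP a = (s1 + k) * μ := by
      rw [h1]
      push_cast
      field_simp
    rw [h2]
    exact mul_lt_mul_of_pos_right (by linarith) hM'
  -- convergence
  have hint : ∀ s, s1 < s → IntegrableOn (fun x => rv (qf α m a) x ^ s * rv (qf α e a) x)
      (Ux α a ∩ (Pos n ∩ closedBall px ρ)) := by
    intro s hs
    have hmeas : Measurable fun x => rv (qf α m a) x ^ s * rv (qf α e a) x :=
      ((rv_cont _).measurable.pow_const s).mul (rv_cont _).measurable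
    refine Integrable.mono' ((hintτ _ (hs1k s hs)).const_mul
      ((q ^ (∑ h, (|s| * m h + e h)))⁻¹ ^ Fintype.card ι)) hmeas.aestronglyMeasurable ?_
    rw [ae_restrict_iff' ((Ux_open α a).measurableSet.inter
      (Pos_open.measurableSet.inter measurableSet_closedBall))]
    refine Eventually.of_forall fun x hx => ?_
    rw [Real.norm_eq_abs, abs_of_nonneg (mul_nonneg (Real.rpow_nonneg (hreg.pos x hx.1).le _)
      (hh_nonneg x hx.1)), weight_eq α m e a hx.1 s, ← hEsum s]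
    refine prod_upper (A := fun h => α h ⬝ᵥ pw a x) (E := fun h => s * m h + e h)
      (P := fun h => α h ∈ G) hx.1 hq0 hq1 (hTb _ s le_rfl) (hEnn s hs) (hrange x hx.2.2)
      fun h hh => ?_
    rw [div_le_iff₀ (hx.1 h0)]
    have h1 := hcmp (pw a x) (hUb x hx.1 hx.2.1) (Sum.inl h) hh
    exact h1.trans (mul_le_mul_of_nonneg_right hqcc (hx.1 h0).le)
  -- divergence
  have hdivW : ∀ ρ' : ℝ, 0 < ρ' → ρ' ≤ ρ → ∀ R' : ℝ, ∃ᶠ t in 𝓝[>] s1,
      R' < ∫ x in Ux α a ∩ (Pos n ∩ closedBall px (ρ' / 2)),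
        rv (qf α m a) x ^ t * rv (qf α e a) x := by
    intro ρ' hρ' hle R'
    have hsubρ : closedBall px (ρ' / 2) ⊆ closedBall px ρ :=
      closedBall_subset_closedBall (by linarith)
    set T : ℝ := ∑ h, ((|s1| + 1) * m h + e h) with hT
    have hqT : 0 < (q ^ T) ^ Fintype.card ι := pow_pos (Real.rpow_pos_of_pos hq0 T) _
    set β := ap α G h0 κ with hβ
    have hβr : ∀ h, α h ∈ G → β (Sum.inr h) = α h - κ • α h0 := fun h hh => if_pos hh
    have hβr' : ∀ h, α h ∉ G → β (Sum.inr h) = α h := fun h hh => if_neg hh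
    have hcase : ∀ j, bt β j ∉ G → ∃ j', bt α j' ∉ G ∧ bt β j = bt α j' := by
      rintro ((h | h) | i) hj
      · exact ⟨Sum.inl h, hj, rfl⟩
      · by_cases hh : α h ∈ G
        · exfalso
          apply hj
          show β (Sum.inr h) ∈ G
          rw [hβr h hh]
          exact G.sub_mem hh (G.smul_mem _ hh0)
        · refine ⟨Sum.inl h, hh, ?_⟩
          exact hβr' h hh
      · exact ⟨Sum.inr i, hj, rfl⟩
    have hne : (Ch (bt β)).Nonempty := by
      refine ch_nonempty (bt β) G (p := p) (x₀ := x₀) (fun j hj => hp _ hj) (fun j hj => ?_)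
        fun j hj => ?_
      · obtain ⟨j', h1, h2⟩ := hcase j hj
        rw [h2]
        exact hpp j' h1
      · rcases j with (h | h) | i
        · exact hx₀ (Sum.inl h) hj
        · by_cases hh : α h ∈ G
          · show 0 < β (Sum.inr h) ⬝ᵥ x₀
            rw [hβr h hh, sub_dotProduct, smul_dotProduct, smul_eq_mul]
            linarith [hκ h hh]
          · exfalso
            change β (Sum.inr h) ∈ G at hj
            rw [hβr' h hh] at hj
            exact hh hj
        · exact hx₀ (Sum.inr i) hj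
    have hUsub : Ux β a ⊆ Ux α a := fun x hx h => hx (Sum.inl h)
    have hUκ : ∀ x ∈ Ux β a, ∀ h, α h ∈ G → κ * (α h0 ⬝ᵥ pw a x) ≤ α h ⬝ᵥ pw a x := by
      intro x hx h hh
      have h1 := hx (Sum.inr h)
      rw [hβr h hh, sub_dotProduct, smul_dotProduct, smul_eq_mul] at h1
      linarith
    have hmuβ : mu β (mp h0) G = 1 := mu_mp hh0 κ
    have hrvβ : ∀ x, rv (qf β (mp h0) a) x = α h0 ⬝ᵥ pw a x := fun x => rv_mp α G h0 κ a x
    have hdiv1 := div_pow_of (α := β) (m := mp h0) ha0 (G := G)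
      (by rw [hmuβ]; exact one_pos) hpx0 hpw hρ' (fun j hj => hp _ hj) hc0
      (fun j hj x hx => by
        obtain ⟨j', h1, h2⟩ := hcase j hj
        rw [h2]
        exact hout' j' h1 x (closedBall_subset_closedBall hle hx)) hne
      (s0 := -(K0 : ℝ) / PP a) (by rw [hmuβ, mul_one])
      (div_neg_of_neg_of_pos (by linarith) ha')
      (fun s hs => by
        simp only [hrvβ]
        exact (hintτ s hs).mono_set (inter_subset_inter hUsub (inter_subset_inter_right _
          (closedBall_subset_closedBall hle))))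
      (R' / (q ^ T) ^ Fintype.card ι)
    simp only [hrvβ] at hdiv1
    have htend : Tendsto (fun τ : ℝ => τ / μ - k) (𝓝[>] (-(K0 : ℝ) / PP a)) (𝓝[>] s1) := by
      have hs1' : s1 = -(K0 : ℝ) / PP a / μ - k := by
        rw [hs1]
        push_cast
        rw [div_div]
      refine tendsto_nhdsWithin_of_tendsto_nhds_of_eventually_within _ ?_ ?_
      · have hc : Continuous fun τ : ℝ => τ / μ - k := by fun_prop
        have h1 := hc.tendsto (-(K0 : ℝ) / PP a)
        rw [← hs1'] at h1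
        exact h1.mono_left nhdsWithin_le_nhds
      · filter_upwards [self_mem_nhdsWithin] with τ hτ
        rw [hs1']
        show -(K0 : ℝ) / PP a / μ - k < τ / μ - k
        have := div_lt_div_of_pos_right (show -(K0 : ℝ) / PP a < τ from hτ) hM'
        linarith
    refine htend.frequently ?_
    have hev : ∀ᶠ τ in 𝓝[>] (-(K0 : ℝ) / PP a), s1 < τ / μ - k ∧ τ / μ - k < s1 + 1 := by
      have h1 : ∀ᶠ t in 𝓝[>] s1, s1 < t ∧ t < s1 + 1 := by
        refine Filter.Eventually.and self_mem_nhdsWithin ?_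
        exact (gt_mem_nhds (lt_add_one s1)).filter_mono nhdsWithin_le_nhds
      exact htend.eventually h1
    refine (hdiv1.and_eventually hev).mono ?_
    rintro τ ⟨h1, h2, h3⟩
    set t := τ / μ - k with ht
    have htk : (t + k) * μ = τ := by
      rw [ht]
      field_simp
      ring
    have hI1 : IntegrableOn (fun x => rv (qf α m a) x ^ t * rv (qf α e a) x)
        (Ux α a ∩ (Pos n ∩ closedBall px (ρ' / 2))) :=
      (hint t h2).mono_set (inter_subset_inter_right _ (inter_subset_inter_right _ hsubρ))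
    have hsub : Ux β a ∩ (Pos n ∩ closedBall px (ρ' / 2)) ⊆
        Ux α a ∩ (Pos n ∩ closedBall px (ρ' / 2)) := inter_subset_inter_left _ hUsub
    have hI2 : IntegrableOn (fun x => (α h0 ⬝ᵥ pw a x) ^ τ)
        (Ux β a ∩ (Pos n ∩ closedBall px (ρ' / 2))) := by
      have h4 := hs1k t h2
      rw [htk] at h4
      exact (hintτ τ h4).mono_set (hsub.trans (inter_subset_inter_right _
        (inter_subset_inter_right _ hsubρ)))
    have hmβ : MeasurableSet (Ux β a ∩ (Pos n ∩ closedBall px (ρ' / 2))) :=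
      (Ux_open β a).measurableSet.inter (Pos_open.measurableSet.inter measurableSet_closedBall)
    have hmα : MeasurableSet (Ux α a ∩ (Pos n ∩ closedBall px (ρ' / 2))) :=
      (Ux_open α a).measurableSet.inter (Pos_open.measurableSet.inter measurableSet_closedBall)
    rw [div_lt_iff₀ hqT] at h1
    have habs : |t| ≤ |s1| + 1 := by
      rw [abs_le]
      constructor
      · linarith [neg_abs_le s1]
      · linarith [le_abs_self s1]
    calc R' < (∫ x in Ux β a ∩ (Pos n ∩ closedBall px (ρ' / 2)), (α h0 ⬝ᵥ pw a x) ^ τ) *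
          (q ^ T) ^ Fintype.card ι := h1
      _ = ∫ x in Ux β a ∩ (Pos n ∩ closedBall px (ρ' / 2)),
          (q ^ T) ^ Fintype.card ι * (α h0 ⬝ᵥ pw a x) ^ τ := by
          rw [integral_const_mul, mul_comm]
      _ ≤ ∫ x in Ux β a ∩ (Pos n ∩ closedBall px (ρ' / 2)), rv (qf α m a) x ^ t * rv (qf α e a) x := by
          refine setIntegral_mono_on (hI2.const_mul _) (hI1.mono_set hsub) hmβ fun x hx => ?_
          have hxU := hUsub hx.1
          have hxρ : x ∈ closedBall px ρ := hsubρ hx.2.2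
          rw [weight_eq α m e a hxU t, ← htk, ← hEsum t]
          refine prod_lower (A := fun h => α h ⬝ᵥ pw a x) (E := fun h => t * m h + e h)
            (P := fun h => α h ∈ G) hxU hq0 hq1 (hTb _ t habs) (hEnn t h2) (hrange x hxρ)
            fun h hh _ => ?_
          rw [le_div_iff₀ (hxU h0)]
          exact (mul_le_mul_of_nonneg_right hqκ (hxU h0).le).trans (hUκ x hx.1 h hh)
      _ ≤ ∫ x in Ux α a ∩ (Pos n ∩ closedBall px (ρ' / 2)), rv (qf α m a) x ^ t * rv (qf α e a) x := by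
          refine setIntegral_mono_set hI1 ?_ (LE.le.eventuallyLE hsub)
          refine (ae_restrict_iff' hmα).2 (Eventually.of_forall fun x hx => ?_)
          exact mul_nonneg (Real.rpow_nonneg (hreg.pos x hx.1).le _) (hh_nonneg x hx.1)
  -- the polynomial is not zero
  have hf0 : cx (qf α m a) ≠ 0 := by
    obtain ⟨y, hy⟩ := ch_nonempty (bt α) G hp0 hpp hx₀
    have hyi : ∀ i, 0 ≤ y i := fun i => by
      have := hy (Sum.inr i)
      rw [bt_inr] at this
      exact this.le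
    have hU : rt a y ∈ Ux α a := fun h => by
      rw [pw_rt ha0 hyi]
      exact hy (Sum.inl h)
    intro h0
    have h1 := hreg.pos _ hU
    have h2 := ev_cx (qf α m a) (rt a y)
    rw [h0, map_zero] at h2
    have h3 : rv (qf α m a) (rt a y) = 0 := by exact_mod_cast h2.symm
    linarith
  have hne0 : ∀ i, NeZero (a i) := fun i => ⟨(ha0 i).ne'⟩
  let _ : Fintype (∀ i, rootsOfUnity (a i) ℂ) := Fintype.ofFinite _
  obtain ⟨j, hj⟩ := rootSW (κ := ∀ i, rootsOfUnity (a i) ℂ) hreg (inv_qf α m a) ha0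
    (sec_roots ha) hf0 hb (inv_qf α e a) hh_nonneg hpx0 hpw hρ hint hdivW
  refine ⟨(j : ℤ) - k, ?_⟩
  have h9 : ((((-(K0 : ℝ) / (PP a * μ : ℕ) : ℝ)) : ℂ) + (((j : ℤ) - (k : ℤ) : ℤ) : ℂ)) =
      (s1 : ℂ) + (j : ℂ) := by
    rw [hs1]
    push_cast
    ring
  rw [h9]
  exact hj

end Pool.Agent.T6.H26.RX
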