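import Pool.Agent.T6.H26.RX.D
import Pool.Agent.T6.H16.RW.E2

set_option autoImplicit false

/-! The weighted criterion for products of diagonal polynomials, general signs, and the poles. -/

namespace Pool.Agent.T6.H26.RX

open MvPolynomial Set Module
open Pool.Agent.H628R4.TP (weylS IsBFunction IsLocalBFunction)
open Pool.Agent.TH192.DT (topZ pole_topZ)
open Pool.Agent.T6.H16.RA Pool.Agent.T6.H16.RW

variable {n : ℕ} {ι : Type} [Fintype ι] [DecidableEq ι]

/-- **The weighted criterion for products of powers of diagonal polynomials.** -/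
theorem critWw {α : ι → Fin n → ℝ} {m : ι → ℕ} {a : Fin n → ℕ} (ha : ∀ i, 2 ≤ a i) (ha0 : ∀ i, 0 < a i)
    (hα : ∀ h, α h ≠ 0) (hm : ∀ h, 0 < m h) {G : Submodule ℝ (Fin n → ℝ)}
    (hG : IsFlat (bt α) G) {h0 : ι} (hh0 : α h0 ∈ G) {x₀ : Fin n → ℝ}
    (hx₀ : ∀ j, bt α j ∈ G → bt α j ⬝ᵥ x₀ ≠ 0)
    (hgood : ∀ x : Fin n → ℝ, (∀ j, bt α j ∈ G → 0 ≤ (bt α j ⬝ᵥ x) * (bt α j ⬝ᵥ x₀)) →
      α h0 ⬝ᵥ x = 0 → ∀ j, bt α j ∈ G → bt α j ⬝ᵥ x = 0)
    {b : Polynomial ℂ} (hb : IsBFunction (cx (qf α m a)) b) :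
    ∃ l : ℤ, b.eval ((((-(nuA a G : ℝ) / (PP a * mu α m G : ℕ) : ℝ)) : ℂ) + (l : ℂ)) = 0 := by
  classical
  obtain ⟨p, hp, hp'⟩ := exists_generic (bt α) G
  set q : ι ⊕ Fin n → (Fin n → ℝ) := fun j => if bt α j ∈ G then x₀ else p with hq
  have hq0 : ∀ j, bt α j ⬝ᵥ q j ≠ 0 := by
    intro j
    rw [hq]
    simp only
    split_ifs with hh
    · exact hx₀ j hh
    · exact hp' j hh
  set ε : ι ⊕ Fin n → ℝ := fun j => if 0 < bt α j ⬝ᵥ q j then 1 else -1 with hε
  have hεε : ∀ j, ε j * ε j = 1 := by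
    intro j
    rw [hε]
    simp only
    split_ifs <;> norm_num
  have hε0 : ∀ j, ε j ≠ 0 := fun j h0 => by
    have := hεε j
    rw [h0] at this
    norm_num at this
  have hεp : ∀ j, 0 < ε j * (bt α j ⬝ᵥ q j) := by
    intro j
    rw [hε]
    simp only
    split_ifs with hh
    · linarith
    · have := lt_of_le_of_ne (not_lt.1 hh) (hq0 j)
      linarith
  set η : Fin n → ℝ := fun i => ε (Sum.inr i) with hη'
  have hη : ∀ i, η i * η i = 1 := fun i => hεε _
  set α' : ι → Fin n → ℝ := fun h => ε (Sum.inl h) • sg η hη (α h) with hα'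
  have hbt : ∀ j, bt α' j = ε j • sg η hη (bt α j) := by
    rintro (h | i)
    · rfl
    · show (Pi.single i 1 : Fin n → ℝ) = ε (Sum.inr i) • sg η hη (Pi.single i 1)
      rw [sg_single, smul_smul]
      have : ε (Sum.inr i) * η i = 1 := hεε _
      rw [this, one_smul]
  have hbt' : ∀ j, sg η hη (bt α j) = ε j • bt α' j := by
    intro j
    rw [hbt, smul_smul, hεε, one_smul]
  have hmem : ∀ j (S : Submodule ℝ (Fin n → ℝ)), bt α' j ∈ im hη S ↔ bt α j ∈ S := by
    intro j S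
    rw [mem_im, hbt, map_smul, sg_sg, S.smul_mem_iff (hε0 j)]
  have hdot : ∀ j x, bt α' j ⬝ᵥ sg η hη x = ε j * (bt α j ⬝ᵥ x) := by
    intro j x
    rw [hbt, smul_dotProduct, sg_dot, smul_eq_mul]
  have hα'0 : ∀ h, α' h ≠ 0 := fun h => smul_ne_zero (hε0 _) (by
    rw [Ne, LinearEquiv.map_eq_zero_iff]
    exact hα h)
  have hmu : ∀ S, mu α' m (im hη S) = mu α m S := by
    intro S
    unfold mu
    refine Finset.sum_congr rfl fun h _ => ?_
    have := hmem (Sum.inl h) S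
    change (α' h ∈ im hη S ↔ α h ∈ S) at this
    simp only [this]
  have hG' : IsFlat (bt α') (im hη G) := by
    apply le_antisymm
    · conv_lhs => rw [hG]
      unfold im
      rw [Submodule.map_span, Submodule.span_le]
      rintro _ ⟨_, ⟨h1, j, rfl⟩, rfl⟩
      show sg η hη (bt α j) ∈ _
      rw [hbt']
      exact Submodule.smul_mem _ _ (Submodule.subset_span ⟨(hmem j G).2 h1, j, rfl⟩)
    · rw [Submodule.span_le]
      rintro v ⟨h1, -⟩
      exact h1
  -- the polynomials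
  have hz : ∀ i, ∃ z : ℂ, z ^ a i = (η i : ℂ) := fun i =>
    IsAlgClosed.exists_pow_nat_eq _ (ha0 i)
  choose z hz using hz
  have hz0 : ∀ i, z i ≠ 0 := by
    intro i h0
    have h1 := hz i
    rw [h0, zero_pow (ha0 i).ne'] at h1
    exact hε0 (Sum.inr i) (by exact_mod_cast h1.symm)
  have hdf : ∀ (c : ℝ) (v : Fin n → ℝ), cx (dform a (c • sg η hη v)) =
      C (c : ℂ) * sc z (cx (dform a v)) := by
    intro c v
    unfold cx dform
    rw [map_sum, map_sum, map_sum, Finset.mul_sum]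
    refine Finset.sum_congr rfl fun i _ => ?_
    simp only [map_mul, map_pow, map_C, map_X, sc_C, sc_X, Pi.smul_apply, smul_eq_mul, sg_apply,
      mul_pow]
    rw [← map_pow, hz i]
    simp only [Complex.coe_algebraMap]
    ring
  have hcx : cx (qf α' m a) = C (∏ h, (ε (Sum.inl h) : ℂ) ^ m h) * sc z (cx (qf α m a)) := by
    have h1 : ∀ β : ι → Fin n → ℝ, cx (qf β m a) = ∏ h, cx (dform a (β h)) ^ m h := by
      intro β
      unfold cx qf
      rw [map_prod]
      simp only [map_pow]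
    rw [h1, h1, map_prod, map_prod, ← Finset.prod_mul_distrib]
    refine Finset.prod_congr rfl fun h _ => ?_
    rw [hα', hdf, mul_pow, map_pow, map_pow]
  have hb' : IsBFunction (cx (qf α' m a)) b := by
    rw [hcx]
    refine isBFunction_C_mul (isBFunction_sc hb hz0) ?_
    rw [Finset.prod_ne_zero_iff]
    intro h _
    exact pow_ne_zero _ (Complex.ofReal_ne_zero.2 (hε0 _))
  have key := crit_posW ha ha0 hα'0 hm hG' (h0 := h0)
    ((hmem (Sum.inl h0) G).2 hh0) (p := sg η hη p)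
    (x₀ := sg η hη x₀) (fun v hv => ?_) (fun j hj => ?_) (fun j hj => ?_)
    (fun x' hx' hx0 j hj => ?_) hb'
  · rw [hmu, nuA_im] at key
    exact key
  · rw [mem_im] at hv
    have := hp _ hv
    rwa [← sg_dot hη, sg_sg] at this
  · rw [hdot]
    have h1 := hεp j
    have h2 : q j = p := if_neg fun h3 => hj ((hmem j G).2 h3)
    rwa [h2] at h1
  · rw [hdot]
    have h1 := hεp j
    have h2 : q j = x₀ := if_pos ((hmem j G).1 hj)
    rwa [h2] at h1
  · obtain ⟨x, rfl⟩ : ∃ x, x' = sg η hη x := ⟨sg η hη x', (sg_sg hη x').symm⟩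
    have hx0' : α h0 ⬝ᵥ x = 0 := by
      have h3 := hdot (Sum.inl h0) x
      change α' h0 ⬝ᵥ sg η hη x = ε (Sum.inl h0) * (α h0 ⬝ᵥ x) at h3
      rw [hx0] at h3
      exact (mul_eq_zero.1 h3.symm).resolve_left (hε0 _)
    rw [hdot, hgood x (fun j hj => ?_) hx0' j ((hmem j G).1 hj), mul_zero]
    have h3 := hx' j ((hmem j G).2 hj)
    rw [hdot] at h3
    have h1 := hεp j
    have h2 : q j = x₀ := if_pos hj
    rw [h2] at h1
    have h4 := mul_nonneg h3 h1.le
    have h5 : ε j * (bt α j ⬝ᵥ x) * (ε j * (bt α j ⬝ᵥ x₀)) =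
        (ε j * ε j) * ((bt α j ⬝ᵥ x) * (bt α j ⬝ᵥ x₀)) := by ring
    rw [h5, hεε, one_mul] at h4
    exact h4

omit [DecidableEq ι] in
/-- **The poles are roots up to integers.** -/
theorem poles_weak {c : ι → Fin n → ℝ} {m : ι → ℕ} {a : Fin n → ℕ} (ha : ∀ i, 2 ≤ a i)
    (hc : ∀ h, c h ≠ 0) (hm : ∀ h, 0 < m h) {I : Type} [Fintype I]
    (G : I → Submodule ℝ (Fin n → ℝ)) (hG : ∀ i, IsIrr (bt c) (G i))
    (χ : Finset I → ℤ) (s₀ : ℂ)
    (hs : (topZ (fun i => nuG a (G i)) (fun i => nG c m a (G i)) χ).denom.eval s₀ = 0)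
    (b : Polynomial ℂ) (hb : IsLocalBFunction (diagProd c m a) b) :
    ∃ l : ℤ, b.eval (s₀ + (l : ℂ)) = 0 := by
  classical
  have ha0 : ∀ i, 0 < a i := fun i => lt_of_lt_of_le Nat.zero_lt_two (ha i)
  have hb' : IsBFunction (cx (qf c m a)) b := by
    rw [← diagProd_eq]
    exact global_of_localW (wts_pos ha0) _ (diagProd_ne ha0 hc) _ (diagProd_hom c m a) b hb
  obtain ⟨i, hN, rfl⟩ := pole_topZ _ _ χ (fun i => nuG_pos ha0 (hG i).1) s₀ hs
  have hM : 0 < mu c m (G i) := by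
    unfold nG at hN
    exact Nat.pos_of_mul_pos_left hN
  obtain ⟨h0, hh0⟩ : ∃ h0, c h0 ∈ G i := by
    by_contra hcon
    push Not at hcon
    have h1 : mu c m (G i) = 0 := by
      unfold mu
      exact Finset.sum_eq_zero fun h _ => if_neg (hcon h)
    omega
  obtain ⟨x, -, hx2, hx3⟩ := bounded_chamber _ (fin (bt c) (G i)) ∅ (Sum.inl h0) rfl
    (mem_fin.2 hh0) (conn_of_irr (bt_ne hc) (hG i)) (fun g _ hg => by
      unfold sp at hg
      rw [Finset.coe_empty, Set.image_empty, Submodule.span_empty, Submodule.mem_bot] at hg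
      exact bt_ne hc g hg)
  obtain ⟨l, key⟩ := critWw ha ha0 hc hm (hG i).2.1 hh0 (x₀ := x)
    (fun g hg => hx2 g (mem_fin.2 hg))
    (fun y hy hy0 j hj => hx3 y (fun g hg => absurd hg (Finset.notMem_empty g))
      (fun g hg => hy g (mem_fin.1 hg)) hy0 j (mem_fin.2 hj)) hb'
  refine ⟨l, ?_⟩
  have hP : (PP a : ℝ) ≠ 0 := by exact_mod_cast (PP_pos ha0).ne'
  have hE : (el a (G i) : ℝ) ≠ 0 := by exact_mod_cast (el_pos ha0 (G i)).ne'
  have hM' : (mu c m (G i) : ℝ) ≠ 0 := by exact_mod_cast hM.ne'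
  have e : -(nuG a (G i) : ℝ) / (nG c m a (G i) : ℕ) =
      -(nuA a (G i) : ℝ) / (PP a * mu c m (G i) : ℕ) := by
    have h1 := nuG_eq ha0 (G i)
    unfold nG
    push_cast
    rw [div_eq_div_iff (mul_ne_zero hE hM') (mul_ne_zero hP hM')]
    linear_combination (-(mu c m (G i) : ℝ)) * h1
  rw [← e] at key
  convert key using 1
  push_cast
  rfl

end Pool.Agent.T6.H26.RX
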